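import Pool.Agent.Helper57.NX.Defs

/-!
# NX-2 Form: the multilinear form
-/

set_option autoImplicit false

open Finset
open scoped BigOperators ComplexConjugate

namespace Pool.Agent.Helper57.NX

noncomputable section

section Form
variable {m N : ℕ} [NeZero N]

/-- translation invariance of the average -/
private lemma exp_shift {M : Type} [AddCommMonoid M] [Module ℚ≥0 M] (f : ZMod N → M)
    (t : ZMod N) : 𝔼 x, f (x + t) = 𝔼 x, f x :=
  Fintype.expect_equiv (Equiv.addRight t) _ _ fun _ => rfl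

private lemma prod_update (S : Sys m) (c : Fin m → ℝ) (f : Fin m → ZMod N → ℂ) (i : Fin m)
    (u : ZMod N → ℂ) (k : ℕ) (x : ZMod N) :
    ∏ j, Function.update f i u j (x + (S.a c j k : ZMod N)) =
      u (x + (S.a c i k : ZMod N)) * ∏ j ∈ univ.erase i, f j (x + (S.a c j k : ZMod N)) := by
  rw [← Finset.mul_prod_erase univ _ (mem_univ i), Function.update_self]
  congr 1
  refine Finset.prod_congr rfl fun j hj => ?_
  rw [Function.update_of_ne (ne_of_mem_erase hj)]

private lemma form_update (S : Sys m) (c : Fin m → ℝ) (h : ℕ → ℂ) (f0 : ZMod N → ℂ)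
    (f : Fin m → ZMod N → ℂ) (i : Fin m) (u : ZMod N → ℂ) :
    form S c h f0 (Function.update f i u) =
      𝔼 k ∈ S.I, h k * 𝔼 x : ZMod N, u (x + (S.a c i k : ZMod N)) *
        (f0 x * ∏ j ∈ univ.erase i, f j (x + (S.a c j k : ZMod N))) := by
  unfold form
  refine Finset.expect_congr rfl fun k _ => ?_
  congr 1
  refine Finset.expect_congr rfl fun x _ => ?_
  rw [prod_update]
  ring

theorem form_update_add (S : Sys m) (c : Fin m → ℝ) (h : ℕ → ℂ) (f0 : ZMod N → ℂ)
    (f : Fin m → ZMod N → ℂ) (i : Fin m) (u v : ZMod N → ℂ) :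
    form S c h f0 (Function.update f i (fun x => u x + v x)) =
      form S c h f0 (Function.update f i u) + form S c h f0 (Function.update f i v) := by
  rw [form_update, form_update, form_update, ← Finset.expect_add_distrib]
  refine Finset.expect_congr rfl fun k _ => ?_
  rw [← mul_add, ← Finset.expect_add_distrib]
  congr 1
  refine Finset.expect_congr rfl fun x _ => ?_
  ring

theorem form_update_sub (S : Sys m) (c : Fin m → ℝ) (h : ℕ → ℂ) (f0 : ZMod N → ℂ)
    (f : Fin m → ZMod N → ℂ) (i : Fin m) (u v : ZMod N → ℂ) :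
    form S c h f0 (Function.update f i (fun x => u x - v x)) =
      form S c h f0 (Function.update f i u) - form S c h f0 (Function.update f i v) := by
  rw [form_update, form_update, form_update, ← Finset.expect_sub_distrib]
  refine Finset.expect_congr rfl fun k _ => ?_
  rw [← mul_sub, ← Finset.expect_sub_distrib]
  congr 1
  refine Finset.expect_congr rfl fun x _ => ?_
  ring

theorem form_update_smul (S : Sys m) (c : Fin m → ℝ) (h : ℕ → ℂ) (f0 : ZMod N → ℂ)
    (f : Fin m → ZMod N → ℂ) (i : Fin m) (z : ℂ) (u : ZMod N → ℂ) :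
    form S c h f0 (Function.update f i (fun x => z * u x)) =
      z * form S c h f0 (Function.update f i u) := by
  rw [form_update, form_update, Finset.mul_expect (M := ℂ)]
  refine Finset.expect_congr rfl fun k _ => ?_
  rw [mul_left_comm z (h k), Finset.mul_expect _ _ z]
  congr 1
  refine Finset.expect_congr rfl fun x _ => ?_
  ring

/-- an average of numbers at most `b` is at most `b`, if `b` is nonnegative -/
private lemma expect_le_of_nonneg {ι : Type} (s : Finset ι) (g : ι → ℝ) (b : ℝ) (hb : 0 ≤ b)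
    (h : ∀ i ∈ s, g i ≤ b) : (𝔼 i ∈ s, g i) ≤ b := by
  rcases s.eq_empty_or_nonempty with rfl | hs
  · simpa using hb
  · exact Finset.expect_le hs h

private lemma norm_prod_le (s : Finset (Fin m)) (f : Fin m → ZMod N → ℂ)
    (hf : ∀ j ∈ s, ∀ x, ‖f j x‖ ≤ 1) (y : Fin m → ZMod N) : ‖∏ j ∈ s, f j (y j)‖ ≤ 1 := by
  rw [norm_prod]
  exact Finset.prod_le_one (fun j _ => norm_nonneg _) fun j hj => hf j hj _

theorem norm_form_update_le (S : Sys m) (c : Fin m → ℝ) (h : ℕ → ℂ) (hh : ∀ k, ‖h k‖ ≤ 1)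
    (f0 : ZMod N → ℂ) (hf0 : ∀ x, ‖f0 x‖ ≤ 1)
    (f : Fin m → ZMod N → ℂ) (i : Fin m) (hf : ∀ j, j ≠ i → ∀ x, ‖f j x‖ ≤ 1) (u : ZMod N → ℂ) :
    ‖form S c h f0 (Function.update f i u)‖ ≤ nrm u := by
  have hu : 0 ≤ nrm u := Finset.expect_nonneg fun x _ => norm_nonneg _
  rw [form_update]
  refine (RCLike.norm_expect_le (K := ℂ)).trans (expect_le_of_nonneg _ _ _ hu fun k _ => ?_)
  rw [norm_mul]
  refine (mul_le_of_le_one_left (norm_nonneg _) (hh k)).trans ?_
  refine (RCLike.norm_expect_le (K := ℂ)).trans ?_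
  refine (Finset.expect_le_expect fun x _ => ?_).trans
    (exp_shift (fun x => ‖u x‖) (S.a c i k : ZMod N)).le
  rw [norm_mul, norm_mul]
  refine mul_le_of_le_one_right (norm_nonneg _) ?_
  refine mul_le_one₀ (hf0 x) (norm_nonneg _) ?_
  exact norm_prod_le _ _ (fun j hj => hf j (ne_of_mem_erase hj)) _

theorem norm_form_le_one (S : Sys m) (c : Fin m → ℝ) (h : ℕ → ℂ) (hh : ∀ k, ‖h k‖ ≤ 1)
    (f0 : ZMod N → ℂ) (hf0 : ∀ x, ‖f0 x‖ ≤ 1)
    (f : Fin m → ZMod N → ℂ) (hf : ∀ j x, ‖f j x‖ ≤ 1) : ‖form S c h f0 f‖ ≤ 1 := by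
  unfold form
  refine (RCLike.norm_expect_le (K := ℂ)).trans (expect_le_of_nonneg _ _ _ zero_le_one fun k _ => ?_)
  rw [norm_mul]
  refine (mul_le_of_le_one_left (norm_nonneg _) (hh k)).trans ?_
  refine (RCLike.norm_expect_le (K := ℂ)).trans (expect_le_of_nonneg _ _ _ zero_le_one fun x _ => ?_)
  rw [norm_mul]
  refine mul_le_one₀ (hf0 x) (norm_nonneg _) ?_
  exact norm_prod_le _ _ (fun j _ => hf j) _

theorem form_dual (S : Sys m) (c : Fin m → ℝ) (h : ℕ → ℂ) (f0 : ZMod N → ℂ)
    (f : Fin m → ZMod N → ℂ) (i : Fin m) (u : ZMod N → ℂ) :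
    form S c h f0 (Function.update f i u) = 𝔼 x, u x * dual S c h f0 f i x := by
  have e1 : ∀ k : ℕ, (𝔼 x : ZMod N, u (x + (S.a c i k : ZMod N)) *
        (f0 x * ∏ j ∈ univ.erase i, f j (x + (S.a c j k : ZMod N)))) =
      𝔼 x : ZMod N, u x * (f0 (x - (S.a c i k : ZMod N)) *
        ∏ j ∈ univ.erase i, f j (x - (S.a c i k : ZMod N) + (S.a c j k : ZMod N))) := by
    intro k
    rw [← exp_shift (fun x => u x * (f0 (x - (S.a c i k : ZMod N)) *
        ∏ j ∈ univ.erase i, f j (x - (S.a c i k : ZMod N) + (S.a c j k : ZMod N))))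
        (S.a c i k : ZMod N)]
    refine Finset.expect_congr rfl fun x _ => ?_
    rw [add_sub_cancel_right]
  rw [form_update]
  simp_rw [e1]
  unfold dual
  simp_rw [Finset.mul_expect]
  rw [Finset.expect_comm]
  refine Finset.expect_congr rfl fun x _ => ?_
  refine Finset.expect_congr rfl fun k _ => ?_
  ring

theorem norm_dual_le (S : Sys m) (c : Fin m → ℝ) (h : ℕ → ℂ) (hh : ∀ k, ‖h k‖ ≤ 1)
    (f0 : ZMod N → ℂ) (hf0 : ∀ x, ‖f0 x‖ ≤ 1)
    (f : Fin m → ZMod N → ℂ) (i : Fin m) (hf : ∀ j, j ≠ i → ∀ x, ‖f j x‖ ≤ 1) (x : ZMod N) :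
    ‖dual S c h f0 f i x‖ ≤ 1 := by
  unfold dual
  refine (RCLike.norm_expect_le (K := ℂ)).trans (expect_le_of_nonneg _ _ _ zero_le_one fun k _ => ?_)
  rw [norm_mul, norm_mul]
  refine mul_le_one₀ (hh k) (by positivity) ?_
  refine mul_le_one₀ (hf0 _) (norm_nonneg _) ?_
  exact norm_prod_le _ _ (fun j hj => hf j (ne_of_mem_erase hj)) _

/-- the dual function does not see `f i` -/
theorem dual_update (S : Sys m) (c : Fin m → ℝ) (h : ℕ → ℂ) (f0 : ZMod N → ℂ)
    (f : Fin m → ZMod N → ℂ) (i : Fin m) (u : ZMod N → ℂ) :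
    dual S c h f0 (Function.update f i u) i = dual S c h f0 f i := by
  funext x
  unfold dual
  refine Finset.expect_congr rfl fun k _ => ?_
  congr 2
  refine Finset.prod_congr rfl fun j hj => ?_
  rw [Function.update_of_ne (ne_of_mem_erase hj)]

private lemma conj_exp {ι : Type} (s : Finset ι) (g : ι → ℂ) :
    conj (𝔼 i ∈ s, g i) = 𝔼 i ∈ s, conj (g i) := by
  rw [Finset.expect_eq_sum_div_card, Finset.expect_eq_sum_div_card, map_div₀, map_sum,
    Complex.conj_natCast]

/-- Cauchy–Schwarz in `k`: removing the weights -/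
theorem form_cs (S : Sys m) (c : Fin m → ℝ) (h : ℕ → ℂ) (hh : ∀ k, ‖h k‖ ≤ 1)
    (f0 : ZMod N → ℂ) (f : Fin m → ZMod N → ℂ) :
    ‖form S c h f0 f‖ ^ 2 ≤ (𝔼 y : ZMod N, form S c 1 (fun x => f0 x * conj (f0 (x + y)))
      (fun i x => f i x * conj (f i (x + y)))).re := by
  set F : ℕ → ZMod N → ℂ := fun k x => f0 x * ∏ i, f i (x + (S.a c i k : ZMod N)) with hF
  have e1 : (𝔼 y : ZMod N, form S c 1 (fun x => f0 x * conj (f0 (x + y)))
      (fun i x => f i x * conj (f i (x + y)))) =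
      ((𝔼 k ∈ S.I, ‖𝔼 x, F k x‖ ^ 2 : ℝ) : ℂ) := by
    have e2 : ∀ y : ZMod N, form S c 1 (fun x => f0 x * conj (f0 (x + y)))
        (fun i x => f i x * conj (f i (x + y))) =
        𝔼 k ∈ S.I, 𝔼 x : ZMod N, F k x * conj (F k (x + y)) := by
      intro y
      unfold form
      refine Finset.expect_congr rfl fun k _ => ?_
      rw [Pi.one_apply, one_mul]
      refine Finset.expect_congr rfl fun x _ => ?_
      simp only [hF]
      rw [Finset.prod_mul_distrib, map_mul, map_prod]
      have : ∀ i : Fin m, x + (S.a c i k : ZMod N) + y = x + y + (S.a c i k : ZMod N) :=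
        fun i => by ring
      simp_rw [this]
      ring
    simp_rw [e2]
    rw [Finset.expect_comm]
    push_cast
    refine Finset.expect_congr rfl fun k _ => ?_
    rw [Finset.expect_comm]
    have e3 : ∀ x : ZMod N, (𝔼 y : ZMod N, F k x * conj (F k (x + y))) =
        F k x * conj (𝔼 y, F k y) := by
      intro x
      rw [← Finset.mul_expect, conj_exp]
      congr 1
      have := exp_shift (fun y => conj (F k y)) x
      simp_rw [add_comm x]
      exact this
    simp_rw [e3]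
    rw [← Finset.expect_mul, Complex.mul_conj, Complex.normSq_eq_norm_sq]
    push_cast
    rfl
  rw [e1, Complex.ofReal_re]
  have e4 : ‖form S c h f0 f‖ ≤ 𝔼 k ∈ S.I, 1 * ‖𝔼 x, F k x‖ := by
    unfold form
    refine (RCLike.norm_expect_le (K := ℂ)).trans (Finset.expect_le_expect fun k _ => ?_)
    rw [norm_mul]
    exact mul_le_mul_of_nonneg_right (hh k) (norm_nonneg _)
  refine (pow_le_pow_left₀ (norm_nonneg _) e4 2).trans ?_
  refine (Finset.expect_mul_sq_le_sq_mul_sq S.I (fun _ => (1 : ℝ)) fun k => ‖𝔼 x, F k x‖).trans ?_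
  refine mul_le_of_le_one_left (Finset.expect_nonneg fun k _ => by positivity) ?_
  exact expect_le_of_nonneg _ _ _ zero_le_one fun k _ => by norm_num

end Form

end

end Pool.Agent.Helper57.NX
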